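import Pool.Agent.Helper17.IR.Goals

/-!
# The machine in the form of families indexed by `n`
-/

set_option autoImplicit false

namespace Pool.Agent.Helper17.IR

/-- CZ: family form of the machine (helper33's interface, with `0 < κ`) -/
def GCZ : Prop :=
  ∀ (ι : Type) [Fintype ι] [DecidableEq ι] (k0 : ι) (a : ι → ℚ) (x y : ι → ℕ → ℤ) (M : ℕ → ℤ)
    (B : ℕ → ℝ) (I : Set ℕ) (C κ κ1 δ : ℝ),
    I.Infinite → (∀ n : ℕ, (n : ℝ) ≤ B n) → a k0 ≠ 0 → 0 < κ → 0 < δ → κ1 < κ →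
    (∀ k n, |(x k n : ℝ)| ≤ C * B n ∧ |(y k n : ℝ)| ≤ C * B n) →
    (∀ n ∈ I, |(M n : ℝ) - ∑ k, (a k : ℝ) * (2 ^ x k n * 3 ^ y k n)| ≤ Real.exp (-κ * B n)) →
    (∀ n ∈ I, Real.exp (-κ1 * B n) ≤ (2 : ℝ) ^ x k0 n * 3 ^ y k0 n) →
    (∀ n ∈ I, (y k0 n : ℝ) ≤ -δ * B n) →
    ∃ k, k ≠ k0 ∧ ∃ s t : ℤ, {n | n ∈ I ∧ x k n = x k0 n + s ∧ y k n = y k0 n + t}.Infinite

theorem cz_pigeon {ι : Type} [Fintype ι] (x y : ι → ℕ → ℤ) (I : Set ℕ) (hI : I.Infinite)
    (n0 E : ℕ) (h : ∀ n ∈ I, n0 ≤ n → ∃ i j, i ≠ j ∧ |x i n - x j n| ≤ E ∧ |y i n - y j n| ≤ E) :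
    ∃ i j, i ≠ j ∧ ∃ s t : ℤ, {n | n ∈ I ∧ x i n = x j n + s ∧ y i n = y j n + t}.Infinite := by
  classical
  by_contra hc
  push Not at hc
  apply hI
  have hfin : ∀ p : ι × ι × (Set.Icc (-(E:ℤ)) E) × (Set.Icc (-(E:ℤ)) E),
      {n | n ∈ I ∧ p.1 ≠ p.2.1 ∧ x p.1 n = x p.2.1 n + p.2.2.1 ∧
        y p.1 n = y p.2.1 n + p.2.2.2}.Finite := by
    rintro ⟨i, j, s, t⟩
    by_cases hij : i = j
    · refine Set.Finite.subset Set.finite_empty ?_
      rintro n ⟨_, h1, _⟩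
      exact absurd hij h1
    · have := hc i j hij s t
      refine this.subset ?_
      rintro n ⟨h1, _, h2, h3⟩
      exact ⟨h1, h2, h3⟩
  have hU := Set.finite_iUnion hfin
  refine ((Set.finite_Iio n0).union hU).subset ?_
  intro n hn
  by_cases hn0 : n < n0
  · exact Or.inl hn0
  · right
    obtain ⟨i, j, hij, h1, h2⟩ := h n hn (not_lt.1 hn0)
    rw [abs_le] at h1 h2
    refine Set.mem_iUnion.2 ⟨(i, j, ⟨x i n - x j n, h1⟩, ⟨y i n - y j n, h2⟩), ?_⟩
    refine ⟨hn, hij, ?_, ?_⟩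
    · show x i n = x j n + (x i n - x j n); ring
    · show y i n = y j n + (y i n - y j n); ring

theorem gCZ (hM : Mach) : GCZ := by
  classical
  intro ι hι hd k0 a x y M B I C κ κ1 δ hI hB ha hκ hδ hκ1 hxy hM1 hu hy
  -- induction on the cardinality
  induction hr : Fintype.card ι using Nat.strong_induction_on generalizing ι a x y I with
  | _ r ih =>
  let e : ι ≃ Fin r := Fintype.equivFinOfCardEq hr
  obtain ⟨N0, E, hNE⟩ := hM r (fun i => a (e.symm i)) ⌈|C|⌉₊ (Real.exp (-κ)) (Real.exp (-κ1))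
    (δ / 2) (Real.exp κ) (Real.exp (-|κ1|)) (Real.exp_pos _) (by rw [Real.exp_lt_one_iff]; linarith)
    (Real.exp_lt_exp.2 (by linarith)) (by linarith) (Real.exp_pos _)
  have key : ∀ n ∈ I, max N0 2 ≤ n → ∃ i j, i ≠ j ∧ |x i n - x j n| ≤ E ∧ |y i n - y j n| ≤ E := by
    intro n hn hn0
    set N : ℕ := ⌈B n⌉₊ with hN
    have hBN : B n ≤ N := Nat.le_ceil _
    have hB0 : 0 ≤ B n := (Nat.cast_nonneg n).trans (hB n)
    have hNB : (N : ℝ) ≤ B n + 1 := (Nat.ceil_lt_add_one hB0).le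
    have hn' : (n : ℝ) ≤ N := (hB n).trans hBN
    have hnN : n ≤ N := by exact_mod_cast hn'
    have h2 : (2 : ℝ) ≤ n := by exact_mod_cast (le_max_right _ _).trans hn0
    have hCN : C * B n ≤ (⌈|C|⌉₊ : ℝ) * N := by
      have h3 : C ≤ (⌈|C|⌉₊ : ℝ) := (le_abs_self C).trans (Nat.le_ceil _)
      have h4 : (0:ℝ) ≤ (⌈|C|⌉₊ : ℝ) := Nat.cast_nonneg _
      calc C * B n ≤ (⌈|C|⌉₊ : ℝ) * B n := mul_le_mul_of_nonneg_right h3 hB0
        _ ≤ _ := mul_le_mul_of_nonneg_left hBN h4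
    have hmain := hNE N (((le_max_left _ _).trans hn0).trans hnN)
      (fun i => x (e.symm i) n) (fun i => y (e.symm i) n) (M n) (e k0) ?_ ?_ ?_ ?_ ?_
    · obtain ⟨i, j, hij, h1, h3⟩ := hmain
      exact ⟨e.symm i, e.symm j, fun h => hij (e.symm.injective h), h1, h3⟩
    · intro i
      constructor
      · have := ((hxy (e.symm i) n).1).trans hCN
        exact_mod_cast this
      · have := ((hxy (e.symm i) n).2).trans hCN
        exact_mod_cast this
    · have h4 := hM1 n hn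
      have h5 : ∑ i : Fin r, ((a (e.symm i) : ℚ) : ℝ) *
          ((2:ℝ) ^ (x (e.symm i) n) * 3 ^ (y (e.symm i) n)) =
          ∑ k, (a k : ℝ) * (2 ^ x k n * 3 ^ y k n) :=
        Equiv.sum_comp e.symm (fun k => (a k : ℝ) * (2 ^ x k n * 3 ^ y k n))
      rw [h5]
      refine h4.trans ?_
      rw [← Real.exp_nat_mul, ← Real.exp_add]
      apply Real.exp_le_exp.2
      nlinarith
    · simpa using ha
    · simp only [Equiv.symm_apply_apply]
      refine le_trans ?_ (hu n hn)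
      rw [← Real.exp_nat_mul, ← Real.exp_add]
      apply Real.exp_le_exp.2
      have h6 : κ1 * (N - B n) ≥ -|κ1| := by
        have h7 : |κ1 * (N - B n)| ≤ |κ1| := by
          rw [abs_mul]
          have : |(N:ℝ) - B n| ≤ 1 := by rw [abs_le]; constructor <;> linarith
          nlinarith [abs_nonneg κ1]
        exact (abs_le.1 (h7)).1
      nlinarith
    · simp only [Equiv.symm_apply_apply]
      refine (hy n hn).trans ?_
      nlinarith
  obtain ⟨k, l, hkl, s, t, hinf⟩ := cz_pigeon x y I hI (max N0 2) E key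
  by_cases hk : k = k0
  · refine ⟨l, fun h => hkl (hk.trans h.symm), -s, -t, hinf.mono ?_⟩
    rintro n ⟨h1, h2, h3⟩
    subst hk
    exact ⟨h1, by omega, by omega⟩
  by_cases hl : l = k0
  · refine ⟨k, hk, s, t, hinf.mono ?_⟩
    rintro n ⟨h1, h2, h3⟩
    subst hl
    exact ⟨h1, h2, h3⟩
  -- merge `k` into `l`
  set I' : Set ℕ := {n | n ∈ I ∧ x k n = x l n + s ∧ y k n = y l n + t} with hI'
  let ι' : Type := {m : ι // m ≠ k}
  let a' : ι' → ℚ := fun m => if m.1 = l then a l + a k * (2 ^ s * 3 ^ t) else a m.1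
  have hcard : Fintype.card ι' < r := by
    rw [← hr]
    exact Fintype.card_subtype_lt (x := k) (by simp)
  have hsum : ∀ n ∈ I', ∑ m : ι', ((a' m : ℚ) : ℝ) * ((2:ℝ) ^ x m.1 n * 3 ^ y m.1 n) =
      ∑ m, (a m : ℝ) * (2 ^ x m n * 3 ^ y m n) := by
    intro n hn
    have h20 : (2:ℝ) ≠ 0 := by norm_num
    have h30 : (3:ℝ) ≠ 0 := by norm_num
    have e1 : ∑ m : ι', ((a' m : ℚ) : ℝ) * ((2:ℝ) ^ x m.1 n * 3 ^ y m.1 n) =
        ∑ m ∈ Finset.univ.filter (fun m => m ≠ k),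
          (((if m = l then a l + a k * (2 ^ s * 3 ^ t) else a m : ℚ)) : ℝ) *
            ((2:ℝ) ^ x m n * 3 ^ y m n) := by
      rw [Finset.sum_subtype (p := fun m => m ≠ k) (F := inferInstance)]
      intro m; simp
    rw [e1]
    have e2 : ∀ m ∈ Finset.univ.filter (fun m => m ≠ k),
        (((if m = l then a l + a k * (2 ^ s * 3 ^ t) else a m : ℚ)) : ℝ) *
          ((2:ℝ) ^ x m n * 3 ^ y m n) = (a m : ℝ) * (2 ^ x m n * 3 ^ y m n) +
          (if m = l then (a k : ℝ) * (2 ^ x k n * 3 ^ y k n) else 0) := by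
      intro m _
      by_cases hml : m = l
      · subst hml
        rw [if_pos rfl, if_pos rfl, hn.2.1, hn.2.2, zpow_add₀ h20, zpow_add₀ h30]
        push_cast
        ring
      · rw [if_neg hml, if_neg hml, add_zero]
    rw [Finset.sum_congr rfl e2, Finset.sum_add_distrib]
    rw [Finset.sum_ite_eq' , if_pos (by simp [Ne.symm hkl])]
    rw [← Finset.sum_filter_add_sum_filter_not Finset.univ (fun m => m ≠ k)
      (fun m => (a m : ℝ) * (2 ^ x m n * 3 ^ y m n))]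
    congr 1
    have : Finset.univ.filter (fun m => ¬ m ≠ k) = {k} := by
      ext m; simp
    rw [this, Finset.sum_singleton]
  obtain ⟨m, hm, s', t', hinf'⟩ := ih (Fintype.card ι') hcard ι' ⟨k0, Ne.symm hk⟩ a'
    (fun m => x m.1) (fun m => y m.1) I' hinf
    (by
      show (if k0 = l then _ else a k0) ≠ 0
      rw [if_neg (Ne.symm hl)]
      exact ha)
    (fun m n => hxy m.1 n)
    (fun n hn => by
      rw [hsum n hn]
      exact hM1 n hn.1)
    (fun n hn => hu n hn.1) (fun n hn => hy n hn.1) rfl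
  refine ⟨m.1, fun h => hm (Subtype.ext h), s', t', hinf'.mono ?_⟩
  rintro n ⟨h1, h2, h3⟩
  exact ⟨h1.1, h2, h3⟩

end Pool.Agent.Helper17.IR
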