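import Pool.Agent.Helper17.IR.Goals
import Pool.Agent.Helper17.Rg.SUBQ

/-!
# E3: the Subspace theorem at the place `3`
-/

set_option autoImplicit false

open NumberField Pool.Agent.Helper92.Ru Pool.Agent.Helper17.Rg

namespace Pool.Agent.Helper17.IR

/-- the identity matrix with row `m` replaced by `c` -/
def mB {r : ℕ} (c : Fin r → ℚ) (m : Fin r) : Matrix (Fin r) (Fin r) ℚ :=
  (1 : Matrix (Fin r) (Fin r) ℚ).updateRow m c

theorem mB_det {r : ℕ} (c : Fin r → ℚ) (m : Fin r) : (mB c m).det = c m := by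
  unfold mB
  rw [← Matrix.cramer_transpose_apply, Matrix.transpose_one, Matrix.cramer_one]
  rfl

theorem mB_same {r : ℕ} (c : Fin r → ℚ) (m : Fin r) (x : Fin r → ℚ) :
    (mB c m).mulVec x m = ∑ i, c i * x i := by
  simp [mB, Matrix.mulVec, dotProduct]

theorem mB_ne {r : ℕ} (c : Fin r → ℚ) (m i : Fin r) (h : i ≠ m) (x : Fin r → ℚ) :
    (mB c m).mulVec x i = x i := by
  simp [mB, Matrix.mulVec, dotProduct, Matrix.updateRow_ne h, Matrix.one_apply]

/-- coefficients of a linear form vanishing on a proper subspace -/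
theorem exists_form' {r : ℕ} (W : Submodule ℚ (Fin r → ℚ)) (hW : W ≠ ⊤) :
    ∃ u : Fin r → ℚ, u ≠ 0 ∧ ∀ x ∈ W, ∑ i, u i * x i = 0 := by
  obtain ⟨f, hf, hfW⟩ := Submodule.exists_le_ker_of_lt_top W (lt_top_iff_ne_top.2 hW)
  have key : ∀ x, f x = ∑ i : Fin r, f (Pi.single i 1) * x i := by
    intro x
    have h : x = ∑ i, x i • (Pi.single i (1:ℚ) : Fin r → ℚ) := by
      funext j
      simp [Finset.sum_apply, Pi.single_apply]
    conv_lhs => rw [h]
    rw [map_sum]
    simp only [map_smul, smul_eq_mul, mul_comm]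
  refine ⟨fun i => f (Pi.single i 1), ?_, ?_⟩
  · intro h0
    apply hf
    refine LinearMap.ext fun x => ?_
    rw [key x]
    refine Finset.sum_eq_zero fun i _ => ?_
    have := congrFun h0 i
    simp only [Pi.zero_apply] at this
    rw [this, zero_mul]
  · intro x hx
    have h3 := hfW hx
    rw [LinearMap.mem_ker, key x] at h3
    exact h3

theorem w2_of_w3 (w : FinitePlace ℚ) (h : w (3 : ℚ) ≠ 1) : w (2 : ℚ) = 1 := by
  have i2 : w (2:ℚ) ≤ 1 := by simpa using w_int_le w 2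
  have i3 : w (3:ℚ) ≤ 1 := by simpa using w_int_le w 3
  have h3 : w (3:ℚ) < 1 := lt_of_le_of_ne i3 h
  have h1 : w ((3:ℚ) + (-2)) ≤ max (w 3) (w (-2)) := FinitePlace.add_le w _ _
  rw [map_neg_eq_map, show (3:ℚ) + (-2) = 1 by norm_num, map_one] at h1
  rcases le_max_iff.1 h1 with h4 | h4
  · linarith
  · exact le_antisymm i2 h4

section
variable {T : Finset (FinitePlace ℚ)}

/-- `log ‖3‖` at the finite places -/
noncomputable def g3 (v : SP ℚ T) : ℝ :=
  match v with
  | Sum.inl _ => 0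
  | Sum.inr w => Real.log (w.1 (3 : ℚ))

theorem nS_inl_eq (v : InfinitePlace ℚ) (x : ℚ) : nS (T := T) (Sum.inl v) x = |(x : ℝ)| := by
  rw [nS_inl]
  have hm : v.mult = 1 := by
    have : v.IsReal := by
      have h1 : v = Rat.infinitePlace := Subsingleton.elim _ _
      rw [h1]
      exact Rat.isReal_infinitePlace
    exact InfinitePlace.mult_isReal ⟨v, this⟩
  rw [hm, pow_one, Rat.infinitePlace_apply]
  push_cast
  rfl

theorem sum_g3 (hT : ∀ w : FinitePlace ℚ, w ∉ T → w (2 : ℚ) = 1 ∧ w (3 : ℚ) = 1) :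
    ∑ v : SP ℚ T, g3 v = - Real.log 3 := by
  have h := unit_logsum hT 0 1
  rw [Fintype.sum_sum_type] at h ⊢
  simp only [zpow_zero, zpow_one, one_mul] at h
  have h1 : ∀ v : InfinitePlace ℚ, Real.log (nS (T := T) (Sum.inl v) (3 : ℚ)) = Real.log 3 := by
    intro v
    rw [nS_inl_eq]
    norm_num
  simp only [h1, Finset.sum_const, Finset.card_univ] at h
  have hc : Fintype.card (InfinitePlace ℚ) = 1 := Fintype.card_eq_one_iff.2
    ⟨Rat.infinitePlace, fun v => Subsingleton.elim _ _⟩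
  rw [hc, one_smul] at h
  have h2 : ∑ v : InfinitePlace ℚ, g3 (T := T) (Sum.inl v) = 0 := by
    refine Finset.sum_eq_zero fun v _ => rfl
  rw [h2, zero_add]
  have h3 : ∀ w : {w : FinitePlace ℚ // w ∈ T}, g3 (T := T) (Sum.inr w) =
      Real.log (nS (T := T) (Sum.inr w) (3 : ℚ)) := fun w => rfl
  simp only [h3]
  linarith

end

theorem e3_one (hS : SubY) (r : ℕ) (c : Fin r → ℚ) (H : ℕ) (δ : ℝ) (hδ : 0 < δ) (m : Fin r)
    (hm : c m ≠ 0) :
    ∃ (N0 : ℕ) (F : Finset (Fin r → ℚ)), (∀ u ∈ F, u ≠ 0) ∧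
      ∀ N : ℕ, N0 ≤ N → ∀ (a b : Fin r → ℤ) (P α β : ℤ),
        (∀ i, |a i| ≤ H * N ∧ |b i| ≤ H * N) →
        ∑ i, c i * ((2 : ℚ) ^ a i * 3 ^ b i) = P * ((2 : ℚ) ^ α * 3 ^ β) →
        δ * N ≤ (β : ℝ) - b m →
        ∃ u ∈ F, ∑ i, u i * ((2 : ℚ) ^ a i * 3 ^ b i) = 0 := by
  classical
  obtain ⟨T, hT⟩ := exists_T
  let A : SP ℚ T → Matrix (Fin r) (Fin r) ℚ := fun v =>
    match v with
    | Sum.inl _ => 1
    | Sum.inr w => if w.1 (3 : ℚ) = 1 then 1 else mB c m
  have hA : ∀ v, (A v).det ≠ 0 := by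
    intro v
    rcases v with v | w
    · show (1 : Matrix (Fin r) (Fin r) ℚ).det ≠ 0
      rw [Matrix.det_one]; norm_num
    · show (if w.1 (3 : ℚ) = 1 then (1 : Matrix (Fin r) (Fin r) ℚ) else mB c m).det ≠ 0
      split_ifs
      · rw [Matrix.det_one]; norm_num
      · rw [mB_det]; exact hm
  have hl2 : 0 < Real.log 2 := Real.log_pos (by norm_num)
  have hl3 : 0 < Real.log 3 := Real.log_pos (by norm_num)
  let B : ℝ := H * (∑ v : SP ℚ T,
    (|Real.log (nS v (2 : ℚ))| + |Real.log (nS v (3 : ℚ))|) / Real.log 2) +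
    δ * ∑ v : SP ℚ T, |g3 v| / Real.log 2
  have hδ' : 0 < δ * (Real.log 3 / Real.log 2) := by positivity
  have hr : 1 ≤ r := by
    have := m.2
    omega
  obtain ⟨Q0, F, hQ0, hF, hmain⟩ := hS ℚ T r hr A hA B _ hδ'
  choose! u hu using fun (W : Submodule ℚ (Fin r → ℚ)) (hW : W ≠ ⊤) => exists_form' W hW
  obtain ⟨N1, hN1⟩ : ∃ N1 : ℕ, Q0 ≤ 2 ^ N1 := by
    obtain ⟨n, hn⟩ := pow_unbounded_of_one_lt Q0 (by norm_num : (1:ℝ) < 2)
    exact ⟨n, hn.le⟩
  refine ⟨max N1 1, F.image u, ?_, ?_⟩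
  · intro w hw
    obtain ⟨W, hW, rfl⟩ := Finset.mem_image.1 hw
    exact (hu W (hF W hW)).1
  intro N hN a b P α β hab hP hβ
  have hNN1 : N1 ≤ N := (le_max_left _ _).trans hN
  have hN1' : 1 ≤ N := (le_max_right _ _).trans hN
  have hNpos : (0:ℝ) < N := by exact_mod_cast hN1'
  let x : Fin r → ℚ := fun i => 2 ^ a i * 3 ^ b i
  let y : SP ℚ T → Fin r → ℝ := fun v i => Real.log (nS v (x i)) / (N * Real.log 2) +
    if i = m then δ * (g3 v / Real.log 2) else 0
  have hQ : Q0 ≤ (2:ℝ) ^ N := hN1.trans (pow_le_pow_right₀ (by norm_num) hNN1)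
  have hxS : SIntV T x := by
    intro i
    exact unit_SInt hT _ _
  have hyB : ∀ v i, |y v i| ≤ B := by
    intro v i
    refine (abs_add_le _ _).trans (add_le_add ?_ ?_)
    · show |Real.log (nS v (2 ^ a i * 3 ^ b i)) / (N * Real.log 2)| ≤ _
      rw [unit_log, abs_div, abs_of_pos (mul_pos hNpos hl2), div_le_iff₀ (mul_pos hNpos hl2)]
      have h1 : |(a i : ℝ)| ≤ H * N := by exact_mod_cast (hab i).1
      have h2 : |(b i : ℝ)| ≤ H * N := by exact_mod_cast (hab i).2
      have h3 : |(a i : ℝ) * Real.log (nS v (2:ℚ)) + b i * Real.log (nS v (3:ℚ))| ≤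
          H * N * (|Real.log (nS v (2 : ℚ))| + |Real.log (nS v (3 : ℚ))|) := by
        refine (abs_add_le _ _).trans ?_
        rw [abs_mul, abs_mul, mul_add]
        gcongr
      refine h3.trans ?_
      have h4 : (|Real.log (nS v (2 : ℚ))| + |Real.log (nS v (3 : ℚ))|) / Real.log 2 ≤
          ∑ v : SP ℚ T, (|Real.log (nS v (2 : ℚ))| + |Real.log (nS v (3 : ℚ))|) / Real.log 2 :=
        Finset.single_le_sum (f := fun v : SP ℚ T =>
          (|Real.log (nS v (2 : ℚ))| + |Real.log (nS v (3 : ℚ))|) / Real.log 2)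
          (fun v _ => by positivity) (Finset.mem_univ v)
      have h5 : H * N * (|Real.log (nS v (2 : ℚ))| + |Real.log (nS v (3 : ℚ))|) =
          H * ((|Real.log (nS v (2 : ℚ))| + |Real.log (nS v (3 : ℚ))|) / Real.log 2) *
            (N * Real.log 2) := by
        field_simp
      rw [h5]
      refine mul_le_mul_of_nonneg_right ?_ (by positivity)
      exact mul_le_mul_of_nonneg_left h4 (by positivity)
    · have h4 : |g3 v| / Real.log 2 ≤ ∑ v : SP ℚ T, |g3 v| / Real.log 2 :=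
        Finset.single_le_sum (f := fun v : SP ℚ T => |g3 v| / Real.log 2)
          (fun v _ => by positivity) (Finset.mem_univ v)
      have h5 : 0 ≤ |g3 v| / Real.log 2 := by positivity
      split_ifs
      · rw [abs_mul, abs_of_pos hδ, abs_div, abs_of_pos hl2]
        exact mul_le_mul_of_nonneg_left h4 hδ.le
      · rw [abs_zero]
        exact mul_nonneg hδ.le (h5.trans h4)
  have hQy : ∀ t : ℝ, ((2:ℝ) ^ N) ^ t = Real.exp (N * Real.log 2 * t) := by
    intro t
    rw [← Real.rpow_natCast, ← Real.rpow_mul (by norm_num), Real.rpow_def_of_pos (by norm_num)]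
    ring_nf
  have hxpos : ∀ (v : SP ℚ T) i, 0 < nS v (x i) := fun v i => nS_pos v (unit_ne _ _)
  have hyexp : ∀ v i, ((2:ℝ) ^ N) ^ y v i =
      nS v (x i) * Real.exp (if i = m then δ * N * g3 v else 0) := by
    intro v i
    rw [hQy]
    show Real.exp (N * Real.log 2 * (Real.log (nS v (x i)) / (N * Real.log 2) +
      if i = m then δ * (g3 v / Real.log 2) else 0)) = _
    rw [mul_add, mul_div_cancel₀ _ (mul_pos hNpos hl2).ne', Real.exp_add,
      Real.exp_log (hxpos v i)]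
    congr 2
    split_ifs
    · field_simp
    · ring
  have hbox : ∀ v i, nS v ((A v).mulVec x i) ≤ ((2:ℝ) ^ N) ^ y v i := by
    intro v i
    rw [hyexp]
    rcases v with v | w
    · show nS (Sum.inl v) ((1 : Matrix (Fin r) (Fin r) ℚ).mulVec x i) ≤ _
      rw [Matrix.one_mulVec]
      have : g3 (T := T) (Sum.inl v) = 0 := rfl
      rw [this]
      simp
    · show nS (Sum.inr w) ((if w.1 (3 : ℚ) = 1 then (1 : Matrix (Fin r) (Fin r) ℚ)
        else mB c m).mulVec x i) ≤ _
      have hg : g3 (T := T) (Sum.inr w) = Real.log (w.1 (3 : ℚ)) := rfl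
      rw [hg]
      by_cases h3 : w.1 (3 : ℚ) = 1
      · rw [if_pos h3, Matrix.one_mulVec, h3]
        simp
      · rw [if_neg h3]
        by_cases him : i = m
        · subst him
          rw [mB_same, if_pos rfl]
          have h2 := w2_of_w3 w.1 h3
          have hp3 : 0 < w.1 (3 : ℚ) := FinitePlace.pos_iff.2 (by norm_num)
          have hl : Real.log (w.1 (3 : ℚ)) ≤ 0 := by
            apply Real.log_nonpos hp3.le
            simpa using w_int_le w.1 3
          have e1 : nS (T := T) (Sum.inr w) (∑ j, c j * x j) ≤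
              Real.exp (β * Real.log (w.1 (3 : ℚ))) := by
            show nS (T := T) (Sum.inr w) (∑ j, c j * ((2 : ℚ) ^ a j * 3 ^ b j)) ≤ _
            rw [hP, nS_inr, map_mul, map_mul, map_zpow₀, map_zpow₀, h2, one_zpow, one_mul]
            have h5 : w.1 (3 : ℚ) ^ β = Real.exp (β * Real.log (w.1 (3 : ℚ))) := by
              rw [← Real.log_zpow, Real.exp_log (zpow_pos hp3 _)]
            rw [h5]
            have h6 := w_int_le w.1 P
            have h7 := Real.exp_pos (β * Real.log (w.1 (3 : ℚ)))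
            nlinarith
          have e2 : nS (T := T) (Sum.inr w) (x i) = Real.exp (b i * Real.log (w.1 (3 : ℚ))) := by
            show nS (T := T) (Sum.inr w) ((2 : ℚ) ^ a i * 3 ^ b i) = _
            rw [nS_inr, map_mul, map_zpow₀, map_zpow₀, h2, one_zpow, one_mul,
              ← Real.log_zpow, Real.exp_log (zpow_pos hp3 _)]
          rw [e2, ← Real.exp_add]
          refine e1.trans (Real.exp_le_exp.2 ?_)
          nlinarith
        · rw [mB_ne c m i him, if_neg him, Real.exp_zero, mul_one]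
  have hsum : ∑ v, ∑ i, y v i ≤ -(δ * (Real.log 3 / Real.log 2)) := by
    have h9 : ∀ v : SP ℚ T, ∑ i, y v i = ∑ i, Real.log (nS v (x i)) / (N * Real.log 2) +
        δ * (g3 v / Real.log 2) := by
      intro v
      show ∑ i, (Real.log (nS v (x i)) / (N * Real.log 2) +
        if i = m then δ * (g3 v / Real.log 2) else 0) = _
      rw [Finset.sum_add_distrib]
      simp
    simp only [h9]
    have h10 : ∑ v : SP ℚ T, ∑ i : Fin r, Real.log (nS v (x i)) / (N * Real.log 2) = 0 := by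
      rw [Finset.sum_comm]
      refine Finset.sum_eq_zero fun i _ => ?_
      rw [← Finset.sum_div]
      show (∑ v : SP ℚ T, Real.log (nS v (2 ^ a i * 3 ^ b i))) / _ = 0
      rw [unit_logsum hT, zero_div]
    rw [Finset.sum_add_distrib, h10, zero_add, ← Finset.mul_sum, ← Finset.sum_div, sum_g3 hT]
    apply le_of_eq
    ring
  obtain ⟨W, hWF, hxW⟩ := hmain (2 ^ N) hQ x hxS y hyB hbox hsum
  exact ⟨u W, Finset.mem_image_of_mem u hWF, (hu W (hF W hWF)).2 x hxW⟩

theorem gE3 (hS : SubY) : E3 := by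
  classical
  intro r c H δ hδ
  choose! N1 F1 hF1 using fun (m : Fin r) (hm : c m ≠ 0) => e3_one hS r c H δ hδ m hm
  refine ⟨∑ m, N1 m, (Finset.univ.filter fun m => c m ≠ 0).biUnion F1, ?_, ?_⟩
  · intro u hu
    obtain ⟨m, hm, hu⟩ := Finset.mem_biUnion.1 hu
    exact (hF1 m (Finset.mem_filter.1 hm).2).1 u hu
  · intro N hN a b P α β m hab hm hP hβ
    have h1 : N1 m ≤ N := (Finset.single_le_sum (f := N1) (fun i _ => Nat.zero_le _)
      (Finset.mem_univ m)).trans hN
    obtain ⟨u, hu, h2⟩ := (hF1 m hm).2 N h1 a b P α β hab hP hβ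
    exact ⟨u, Finset.mem_biUnion.2 ⟨m, Finset.mem_filter.2 ⟨Finset.mem_univ m, hm⟩, hu⟩, h2⟩

end Pool.Agent.Helper17.IR
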