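import Pool.Agent.Helper17.Rg.Final
import Pool.Agent.Helper17.IR.E3
import Pool.Agent.Helper17.IR.CZ
import Pool.Agent.Helper28.IR.EI
import Pool.Agent.Helper57.IR.SUN
import Pool.Agent.Helper87.IR.MACH

/-!
# Irrationality machine: assembly (no hypotheses)
-/

set_option autoImplicit false

namespace Pool.Agent.Helper17.IR

open Pool.Agent.Helper17.Rg

theorem subY' : SubY := Pool.Agent.Helper31.Rg.subY sst

theorem e3' : E3 := gE3 subY'

theorem eI' : EI := Pool.Agent.Helper28.IR.gEI subQ'

/-- the unit theorem over `ℚ` for `2 ^ a * 3 ^ b` -/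
theorem sun' : SUN := Pool.Agent.Helper57.IR.gSUN e3' eI'

/-- the machine, without hypotheses -/
theorem mach' : Mach := Pool.Agent.Helper87.IR.gMach subQ' e3' eI' sun'

/-- the machine in family form, without hypotheses -/
theorem cz' : GCZ := gCZ mach'

end Pool.Agent.Helper17.IR
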