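import Pool.Agent.Helper17.Rg.Goals

/-!
# Irrationality machine for MP_6829b3_nt: units `2 ^ a * 3 ^ b` and one integer

Everything below follows from `SubY` and `SubQ` (`Helper17/Rg/Goals.lean`, both proved).
Notation in the comments: `X i = 2 ^ a i * 3 ^ b i`.
-/

set_option autoImplicit false

namespace Pool.Agent.Helper17.IR

open Pool.Agent.Helper17.Rg

/-- E3: the Subspace theorem at the place `3`: if a linear combination `∑ c i X i` is divisible by a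
power of `3` which is much larger than that of one of its terms `X m`, `c m ≠ 0`, then there is a
relation `∑ u i X i = 0` with `u ≠ 0` from a finite set.
Goal: `theorem gE3 (h : SubY) : E3` (helper17). -/
def E3 : Prop :=
  ∀ (r : ℕ) (c : Fin r → ℚ) (H : ℕ) (δ : ℝ), 0 < δ →
    ∃ (N0 : ℕ) (F : Finset (Fin r → ℚ)), (∀ u ∈ F, u ≠ 0) ∧
      ∀ N : ℕ, N0 ≤ N → ∀ (a b : Fin r → ℤ) (P α β : ℤ) (m : Fin r),
        (∀ i, |a i| ≤ H * N ∧ |b i| ≤ H * N) → c m ≠ 0 →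
        ∑ i, c i * ((2 : ℚ) ^ a i * 3 ^ b i) = P * ((2 : ℚ) ^ α * 3 ^ β) →
        δ * N ≤ (β : ℝ) - b m →
        ∃ u ∈ F, ∑ i, u i * ((2 : ℚ) ^ a i * 3 ^ b i) = 0

/-- EI: the same at the infinite place.
Goal: `theorem gEI (h : SubQ) : EI`.
Proof. `r = 0` is impossible (`m : Fin 0`), so `r = s + 1`. For every `m` with `c m ≠ 0` apply `SubQ`
to `s`, the coefficients `j ↦ - c (m.succAbove j) / c m`, `2 * H`, `δ / 2`; it gives `N1 m` and a
finite set `F1 m`. Let `F` be the union over `m` (with `c m ≠ 0`) of the images of `F1 m` under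
`u ↦ m.insertNth u.1 u.2` (nonzero because `u ≠ 0`: `Fin.insertNth_apply_same`,
`Fin.insertNth_apply_succAbove`). `N0` larger than all `N1 m` and such that
`2 ^ (-δ N) / |c m| ≤ 2 ^ (-(δ / 2) N)` for `N ≥ N0`, all `m`, i.e. `1 / |c m| ≤ 2 ^ ((δ / 2) N)`.
Given the hypotheses divide by `c m X m`: with `a' j := a (m.succAbove j) - a m`,
`b' j := b (m.succAbove j) - b m` (bounded by `2 H N`),
`|1 - ∑ j, (- c (m.succAbove j) / c m) * (2 ^ a' j * 3 ^ b' j)| ≤ 2 ^ (-(δ / 2) N)`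
(`Fin.sum_univ_succAbove`), `SubQ` with `P = 1` gives `u ∈ F1 m` with
`u.1 + ∑ j, u.2 j * (2 ^ a' j * 3 ^ b' j) = 0`; multiply by `X m`. -/
def EI : Prop :=
  ∀ (r : ℕ) (c : Fin r → ℚ) (H : ℕ) (δ : ℝ), 0 < δ →
    ∃ (N0 : ℕ) (F : Finset (Fin r → ℚ)), (∀ u ∈ F, u ≠ 0) ∧
      ∀ N : ℕ, N0 ≤ N → ∀ (a b : Fin r → ℤ) (m : Fin r),
        (∀ i, |a i| ≤ H * N ∧ |b i| ≤ H * N) → c m ≠ 0 →
        |∑ i, (c i : ℝ) * (2 ^ a i * 3 ^ b i)| ≤ (2 : ℝ) ^ (-δ * N) * (2 ^ a m * 3 ^ b m) →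
        ∃ u ∈ F, ∑ i, u i * ((2 : ℚ) ^ a i * 3 ^ b i) = 0

/-- SUN: the unit equation: in a relation with fixed coefficients (not all zero) among
`X 0, .., X (r - 1)`, two of the `X i` have a bounded quotient.
Goal: `theorem gSUN (h3 : E3) (hI : EI) : SUN`.
Proof. Induction on `r`, for all `d ≠ 0`. `r = 0`: `d ≠ 0` is impossible. Step `r = s + 1`.
(0) If some `d i = 0`: then `d ∘ i.succAbove ≠ 0`, and the relation is one for
`d ∘ i.succAbove`, `a ∘ i.succAbove`, `b ∘ i.succAbove` (`Fin.sum_univ_succAbove`); use the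
induction hypothesis and the injectivity of `i.succAbove`. So let all `d i ≠ 0`.
(1) `s = 0`: `d 0 * X 0 = 0` is impossible, any `E` works. Let `s ≥ 1`.
(2) For every `i` put `c i j := - d (i.succAbove j) / d i`, so a relation gives
`∑ j, c i j * X (i.succAbove j) = X i`, all `c i j ≠ 0`. Apply `E3` and `EI` to `s`, `c i`, `H = 1`,
`δ = 1 / 4`: numbers `N3 i, NI i`, finite sets `F3 i`, `FI i` of nonzero vectors; for each of these
vectors `u` the induction hypothesis gives `E u`. Let `N0 ≥ 1` be larger than all `N3 i, NI i` and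
`E` larger than `N0` and all the `E u` (finite sums over `i` and over the finite sets).
(3) Given a relation for `a, b`. Let `a0 := min a`, `b0 := min b`; replacing `a i` by `a i - a0`
and `b i` by `b i - b0` multiplies the relation by a nonzero number and changes no difference. So
`a i, b i ≥ 0`, `a i3 = 0` for some `i3`, `b i1 = 0` for some `i1`. Let `N` be the maximum of all
`a i` and `b i` (a natural number). If `N < N0` any two indices `i ≠ j` do it. So `N ≥ N0 ≥ 1`.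
(4) If `N / 4 ≤ b i` for some `i`: `i ≠ i1`; apply the property of `E3` for `i`, `P = 1`, `α = a i`,
`β = b i`, `m` with `i.succAbove m = i1` (`Fin.exists_succAbove_eq`): it gives `u ∈ F3 i` with
`∑ j, u j * X (i.succAbove j) = 0`, and the induction hypothesis gives the two indices.
(5) Otherwise all `b i < N / 4`, so `N = a i2` for some `i2`, `i2 ≠ i3` because `a i3 = 0 < N`, and
`X i3 = 3 ^ b i3 ≤ 3 ^ (N / 4) ≤ 2 ^ (N / 2)` (`3 ≤ 4`), `X i2 ≥ 2 ^ N`, so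
`X i3 ≤ 2 ^ (-N / 4) * X i2`; apply the property of `EI` for `i = i3`, `m` with
`i3.succAbove m = i2`: the sum is `X i3`. It gives `u ∈ FI i3`, finish as in (4). -/
def SUN : Prop :=
  ∀ (r : ℕ) (d : Fin r → ℚ), d ≠ 0 → ∃ E : ℕ, ∀ a b : Fin r → ℤ,
    ∑ i, d i * ((2 : ℚ) ^ a i * 3 ^ b i) = 0 →
    ∃ i j, i ≠ j ∧ |a i - a j| ≤ E ∧ |b i - b j| ≤ E

/-- MACH: the machine. If an integer is extremely close to a combination of few units with fixed
coefficients, and one of these units with nonzero coefficient is not tiny and has a large power of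
`3` in its denominator, then two of the units have a bounded quotient.
Goal: `theorem gMach (hQ : SubQ) (h3 : E3) (hI : EI) (hS : SUN) : Mach`.
Proof. Choose `δ > 0` and `ε' > 0` with `ρ < 2 ^ (-δ) < 2 ^ (-(δ - ε')) < σ` (possible:
`ρ < min 1 σ`); for large `N`: `K ρ ^ N ≤ 2 ^ (-δ N)` and `2 ^ (-(δ - ε') N) ≤ κ σ ^ N`, so
`2 ^ (-δ N) ≤ 2 ^ (-ε' N) X i0`. `SubQ` for `r, c, H, δ`: `N1`, `F1`. For `u ∈ F1` with `u.1 = 0` one
has `u.2 ≠ 0` and `SUN` gives `E u`. For `u ∈ F1` with `u.1 ≠ 0` put `c' := - u.2 / u.1`; then the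
relation says `P = ∑ c' i X i`. Apply `EI` to `r, c' - c, H, ε'` and `E3` to `r, c', H, ε`; for all
`v` in the two finite sets `SUN` gives `E v`. Take `E` and `N0` larger than all these numbers.
Given `N, a, b, P, i0`: there is `u ∈ F1` with `u.1 P + ∑ u.2 i X i = 0`. If `u.1 = 0`: `SUN`.
If `u.1 ≠ 0` and `c' i0 ≠ c i0`: `|∑ (c' - c) i X i| = |P - ∑ c i X i| ≤ 2 ^ (-δ N) ≤
2 ^ (-ε' N) X i0`, so `EI` with `m = i0`, then `SUN`. If `c' i0 = c i0 ≠ 0`: `E3` with `m = i0`,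
`α = β = 0`: `0 - b i0 ≥ ε N`; then `SUN`. -/
def Mach : Prop :=
  ∀ (r : ℕ) (c : Fin r → ℚ) (H : ℕ) (ρ σ ε K κ : ℝ), 0 < ρ → ρ < 1 → ρ < σ → 0 < ε → 0 < κ →
    ∃ N0 E : ℕ, ∀ N : ℕ, N0 ≤ N → ∀ (a b : Fin r → ℤ) (P : ℤ) (i0 : Fin r),
      (∀ i, |a i| ≤ H * N ∧ |b i| ≤ H * N) →
      |(P : ℝ) - ∑ i, (c i : ℝ) * (2 ^ a i * 3 ^ b i)| ≤ K * ρ ^ N →
      c i0 ≠ 0 → κ * σ ^ N ≤ (2 : ℝ) ^ a i0 * 3 ^ b i0 → (b i0 : ℝ) ≤ -(ε * N) →
      ∃ i j, i ≠ j ∧ |a i - a j| ≤ E ∧ |b i - b j| ≤ E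

end Pool.Agent.Helper17.IR
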